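import Pool.Agent.H242.LD.Stm2

set_option autoImplicit false

/-!
# Horizontal segments of all heights near the stable set contain nodes `Nod` (helper710 for helper242, LE-START2)

Modification of `Pool/Agent/H977/LD/START.lean` by helper977.
-/

namespace Pool.Agent.H710.LE

open Real Set Metric Filter Topology
open Pool.Agent.TH705.SM (T2 S Si)
open Pool.Agent.H242.TM Pool.Agent.H242.LD

/-- the path of `open_fwd`, explicitly -/
theorem fwd_path {a : ℝ} (ha : 5 ≤ |a|) {A : Set T2} (hA : IsOpen A)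
    (h : (A ∩ Ws a).Nonempty) : ∃ (n₀ N : ℕ) (z : ℝ × ℝ) (ρ s' t' u : ℝ), 0 < ρ ∧
      (∀ s ∈ Icc 0 ρ, pr (z.1 + s, z.2) ∈ (S a)^[n₀] '' A) ∧ 0 ≤ s' ∧ t' ≤ ρ ∧
      Cross (fun s => ((F a)^[N] (z.1 + s, z.2)).1) s' t' u (u + 31 / 200) ∧
      (∀ τ ∈ Icc s' t', ∀ σ ∈ Icc s' t',
        |((F a)^[N] (z.1 + τ, z.2)).2 - ((F a)^[N] (z.1 + σ, z.2)).2| ≤ 31 / 200) ∧
      (∀ j < N, ∀ τ ∈ Icc 0 ρ, |((F a)^[j] (z.1 + τ, z.2)).1| ≤ 1 / 6) ∧
      ∀ τ ∈ Icc s' t', |((F a)^[N] (z.1 + τ, z.2)).1| ≤ 1 / 6 := by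
  obtain ⟨z₀, hzA, hz⟩ := h
  obtain ⟨p, rfl⟩ := pr_surj z₀
  have hz' : Tendsto (fun n : ℕ => (S a)^[n] (pr p)) atTop
    (𝓝 ((0 : UnitAddCircle), (0 : UnitAddCircle))) := hz
  set L := 3 + 2 * π * |a| with hL
  have hL1 : 1 ≤ L := by
    have : 0 ≤ 2 * π * |a| := by positivity
    linarith
  set ε := 1 / (100 * L) with hε
  have hε0 : 0 < ε := by positivity
  have hLε : L * ε = 1 / 100 := by rw [hε]; field_simp
  have hε1 : ε ≤ 1 / 100 := by nlinarith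
  have hex : ∃ n₀, ∀ n ≥ n₀, ‖((S a)^[n] (pr p)).1‖ < ε ∧ ‖((S a)^[n] (pr p)).2‖ < ε := by
    have h1 := (continuous_fst.tendsto _).comp hz'
    have h2 := (continuous_snd.tendsto _).comp hz'
    obtain ⟨n₁, hn₁⟩ := Metric.tendsto_atTop.1 h1 ε hε0
    obtain ⟨n₂, hn₂⟩ := Metric.tendsto_atTop.1 h2 ε hε0
    refine ⟨max n₁ n₂, fun n hn => ?_⟩
    have h3 := hn₁ n ((le_max_left _ _).trans hn)
    have h4 := hn₂ n ((le_max_right _ _).trans hn)
    simp only [Function.comp, dist_zero_right] at h3 h4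
    exact ⟨h3, h4⟩
  obtain ⟨n₀, hn₀⟩ := hex
  set p₁ := (F a)^[n₀] p with hp₁
  have hprp₁ : pr p₁ = (S a)^[n₀] (pr p) := pr_iter a n₀ p
  set z : ℝ × ℝ := p₁ - ((round p₁.1 : ℝ), (round p₁.2 : ℝ)) with hzdef
  have hprz : pr z = (S a)^[n₀] (pr p) := by rw [hzdef, pr_sub_int, hprp₁]
  have hz1 : |z.1| < ε ∧ |z.2| < ε := by
    have h1 := hn₀ n₀ le_rfl
    rw [← hprp₁] at h1
    have e1 : (pr p₁).1 = (p₁.1 : UnitAddCircle) := rfl
    have e2 : (pr p₁).2 = (p₁.2 : UnitAddCircle) := rfl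
    rw [e1, e2, UnitAddCircle.norm_eq, UnitAddCircle.norm_eq] at h1
    exact h1
  have claim : ∀ n : ℕ, |((F a)^[n] z).1| < ε ∧ |((F a)^[n] z).2| < ε := by
    intro n
    induction n with
    | zero => exact hz1
    | succ n ih =>
      constructor
      · apply near_zero
        · have h1 := (hn₀ (n + 1 + n₀) (by omega)).1
          rw [Function.iterate_add_apply, ← hprz, ← pr_iter] at h1
          exact h1
        · rw [iter_fst']
          have h1 := phi_abs_le a ((F a)^[n] z).1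
          have h2 := abs_sub (phi a ((F a)^[n] z).1) ((F a)^[n] z).2
          have h3 : (2 + 2 * π * |a|) * |((F a)^[n] z).1| ≤ (2 + 2 * π * |a|) * ε :=
            mul_le_mul_of_nonneg_left ih.1.le (by positivity)
          have h4 : (2 + 2 * π * |a|) * ε + ε = L * ε := by rw [hL]; ring
          linarith [ih.2]
      · rw [iter_snd]
        exact ih.1
  -- the open set
  have hopen : IsOpen (pr ⁻¹' ((S a)^[n₀] '' A)) := (isOpen_image a n₀ hA).preimage pr_cont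
  have hmem : z ∈ pr ⁻¹' ((S a)^[n₀] '' A) := by
    rw [mem_preimage, hprz]
    exact mem_image_of_mem _ hzA
  have hγ₀ : Continuous (fun s : ℝ => ((z.1 + s, z.2) : ℝ × ℝ)) := by fun_prop
  have hopen2 : IsOpen ((fun s : ℝ => ((z.1 + s, z.2) : ℝ × ℝ)) ⁻¹'
      (pr ⁻¹' ((S a)^[n₀] '' A))) := hopen.preimage hγ₀
  obtain ⟨ρ₀, hρ₀, hball⟩ := Metric.isOpen_iff.1 hopen2 0 (by
    rw [mem_preimage, add_zero]
    exact hmem)
  set ρ := min (ρ₀ / 2) (31 / 200) with hρ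
  have hρ0 : 0 < ρ := by rw [hρ]; positivity
  have hρ1 : ρ ≤ 31 / 200 := min_le_right _ _
  have hin : ∀ s ∈ Icc 0 ρ, pr (z.1 + s, z.2) ∈ (S a)^[n₀] '' A := by
    intro s hs
    apply hball
    rw [mem_ball, dist_zero_right, Real.norm_eq_abs, abs_of_nonneg hs.1]
    have := min_le_left (ρ₀ / 2) (31 / 200 : ℝ)
    linarith [hs.2]
  have hc : ∀ j : ℕ, Continuous (fun s => ((F a)^[j] (z.1 + s, z.2)).1) := fun j =>
    (((F_cont a).iterate j).comp hγ₀).fst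
  have hx0 : ∀ j : ℕ, |((F a)^[j] (z.1 + 0, z.2)).1| < ε := fun j => by
    rw [add_zero]; exact (claim j).1
  have hbd : ∀ j : ℕ, ∀ s : ℝ, |((F a)^[j] (z.1 + s, z.2)).1 - ((F a)^[j] (z.1 + 0, z.2)).1| ≤
      31 / 200 → |((F a)^[j] (z.1 + s, z.2)).1| ≤ 1 / 6 := by
    intro j s h1
    have h2 := abs_sub_abs_le_abs_sub ((F a)^[j] (z.1 + s, z.2)).1
      ((F a)^[j] (z.1 + 0, z.2)).1
    linarith [hx0 j]
  have h0mem : (0:ℝ) ∈ Icc 0 ρ := ⟨le_rfl, hρ0.le⟩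
  have hρmem : ρ ∈ Icc 0 ρ := ⟨hρ0.le, le_rfl⟩
  have hP : ∃ n, ∃ s ∈ Icc 0 ρ, 31 / 200 <
      |((F a)^[n] (z.1 + s, z.2)).1 - ((F a)^[n] (z.1 + 0, z.2)).1| := by
    by_contra hcon
    push Not at hcon
    have hb : ∀ j, ∀ s ∈ Icc 0 ρ, |((F a)^[j] (z.1 + s, z.2)).1| ≤ 1 / 6 :=
      fun j s hs => hbd j s (hcon j s hs)
    have h1 : ∀ n : ℕ, 3 ^ n * ρ ≤
        |((F a)^[n] (z.1 + ρ, z.2)).1 - ((F a)^[n] (z.1 + 0, z.2)).1| := by
      intro n
      induction n with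
      | zero =>
        have e1 : ((F a)^[0] (z.1 + ρ, z.2)).1 = z.1 + ρ := rfl
        have e2 : ((F a)^[0] (z.1 + 0, z.2)).1 = z.1 + 0 := rfl
        rw [e1, e2, pow_zero, one_mul, show z.1 + ρ - (z.1 + 0) = ρ by ring]
        exact le_abs_self _
      | succ n ih =>
        have h2 := expand (a := a) (by linarith) (z := z) (ρ := ρ) (N := n + 1)
          (fun j _ s hs => hb j s hs) n (by omega) ρ hρmem 0 h0mem
        rw [pow_succ]
        linarith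
    obtain ⟨n, hn⟩ := pow_unbounded_of_one_lt ((31 / 200) / ρ) (show (1:ℝ) < 3 by norm_num)
    rw [div_lt_iff₀ hρ0] at hn
    linarith [h1 n, hcon n ρ hρmem]
  classical
  obtain ⟨s₁, hs₁, hs₁'⟩ := Nat.find_spec hP
  have hmin := fun m (hm : m < Nat.find hP) => Nat.find_min hP hm
  set N := Nat.find hP with hN
  have hN0 : N ≠ 0 := by
    intro h0
    rw [h0] at hs₁'
    have e1 : ((F a)^[0] (z.1 + s₁, z.2)).1 = z.1 + s₁ := rfl
    have e2 : ((F a)^[0] (z.1 + 0, z.2)).1 = z.1 + 0 := rfl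
    rw [e1, e2, show z.1 + s₁ - (z.1 + 0) = s₁ by ring, abs_of_nonneg hs₁.1] at hs₁'
    linarith [hs₁.2]
  obtain ⟨M, hM⟩ := Nat.exists_eq_succ_of_ne_zero hN0
  have hbN : ∀ j < N, ∀ s ∈ Icc 0 ρ, |((F a)^[j] (z.1 + s, z.2)).1| ≤ 1 / 6 := by
    intro j hj s hs
    apply hbd
    have := hmin j hj
    push Not at this
    exact this s hs
  have hexp := expand (a := a) (by linarith) hbN M (by omega)
  rw [show M + 1 = N by omega] at hexp
  have hx0N := abs_lt.1 (hx0 N)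
  have hcross : ∃ s' t' u, s' ∈ Icc 0 ρ ∧ t' ∈ Icc 0 ρ ∧ -(1 / 6) ≤ u ∧ u + 31 / 200 ≤ 1 / 6 ∧
      Cross (fun s => ((F a)^[N] (z.1 + s, z.2)).1) s' t' u (u + 31 / 200) := by
    have h1 : ((F a)^[N] (z.1 + 0, z.2)).1 + 31 / 200 ≤ ((F a)^[N] (z.1 + s₁, z.2)).1 ∨
        ((F a)^[N] (z.1 + s₁, z.2)).1 ≤ ((F a)^[N] (z.1 + 0, z.2)).1 - 31 / 200 := by
      rcases abs_cases (((F a)^[N] (z.1 + s₁, z.2)).1 - ((F a)^[N] (z.1 + 0, z.2)).1) with
        ⟨h2, _⟩ | ⟨h2, _⟩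
      · left; rw [h2] at hs₁'; linarith
      · right; rw [h2] at hs₁'; linarith
    rcases h1 with h1 | h1
    · obtain ⟨s', t', h2, h3, h4⟩ := cross_sub (hc N) (u := 0) (v := s₁)
        (lo := ((F a)^[N] (z.1 + 0, z.2)).1) (hi := ((F a)^[N] (z.1 + 0, z.2)).1 + 31 / 200)
        le_rfl h1 (by linarith)
      rw [min_eq_left hs₁.1] at h2
      rw [max_eq_right hs₁.1] at h3
      exact ⟨s', t', _, ⟨h2, h4.1.trans (h3.trans hs₁.2)⟩, ⟨h2.trans h4.1, h3.trans hs₁.2⟩,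
        by linarith [hx0N.1, hx0N.2], by linarith [hx0N.1, hx0N.2], h4⟩
    · obtain ⟨s', t', h2, h3, h4⟩ := cross_sub (hc N) (u := s₁) (v := 0)
        (lo := ((F a)^[N] (z.1 + 0, z.2)).1 - 31 / 200)
        (hi := ((F a)^[N] (z.1 + 0, z.2)).1 - 31 / 200 + 31 / 200)
        h1 (by linarith) (by linarith)
      rw [min_eq_right hs₁.1] at h2
      rw [max_eq_left hs₁.1] at h3
      exact ⟨s', t', _, ⟨h2, h4.1.trans (h3.trans hs₁.2)⟩, ⟨h2.trans h4.1, h3.trans hs₁.2⟩,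
        by linarith [hx0N.1, hx0N.2], by linarith [hx0N.1, hx0N.2], h4⟩
  obtain ⟨s', t', u, hs', ht', hu1, hu2, hC⟩ := hcross
  have hsub : ∀ τ ∈ Icc s' t', τ ∈ Icc 0 ρ := fun τ hτ => ⟨hs'.1.trans hτ.1, hτ.2.trans ht'.2⟩
  refine ⟨n₀, N, z, ρ, s', t', u, hρ0, hin, hs'.1, ht'.2, hC, ?_, hbN, fun τ hτ => ?_⟩
  swap
  · have h1 := hC.2.2 τ hτ
    rw [abs_le]
    exact ⟨by linarith [h1.1], by linarith [h1.2]⟩
  intro τ hτ σ hσ
  have h1 := hexp τ (hsub τ hτ) σ (hsub σ hσ)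
  have h2 := abs_sub_le_of_mem (hC.2.2 τ hτ) (hC.2.2 σ hσ)
  have e1 : ((F a)^[N] (z.1 + τ, z.2)).2 = ((F a)^[M] (z.1 + τ, z.2)).1 := by
    rw [show N = M + 1 by omega, iter_snd]
  have e2 : ((F a)^[N] (z.1 + σ, z.2)).2 = ((F a)^[M] (z.1 + σ, z.2)).1 := by
    rw [show N = M + 1 by omega, iter_snd]
  rw [e1, e2]
  linarith [abs_nonneg (((F a)^[M] (z.1 + τ, z.2)).1 - ((F a)^[M] (z.1 + σ, z.2)).1)]

theorem tube {K : Set ℝ} (hK : IsCompact K) (y : ℝ) {U : Set (ℝ × ℝ)} (hU : IsOpen U)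
    (h : ∀ τ ∈ K, (τ, y) ∈ U) :
    ∃ δ > 0, ∀ y', |y' - y| ≤ δ → ∀ τ ∈ K, (τ, y') ∈ U := by
  obtain ⟨u, v, hu, hv, hKu, hyv, huv⟩ := generalized_tube_lemma hK (isCompact_singleton (x := y)) hU
    (by
      rintro ⟨τ, y''⟩ ⟨h1, h2⟩
      have h3 : y'' = y := h2
      rw [h3]
      exact h τ h1)
  obtain ⟨ε, hε, hball⟩ := Metric.isOpen_iff.1 hv y (hyv rfl)
  refine ⟨ε / 2, by positivity, fun y' hy' τ hτ => huv ⟨hKu hτ, hball ?_⟩⟩
  rw [mem_ball, Real.dist_eq]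
  linarith

/-- `phi_exp` with the large constant -/
theorem phi_exp2 {a x y : ℝ} (hx : |x| ≤ 1 / 6) (hy : |y| ≤ 1 / 6) :
    (2 * |a| - 2) * |x - y| ≤ |phi a x - phi a y| := by
  have h1 := phi_sub_ge a x y
  rw [sin_sub_sin, show (2 * π * x - 2 * π * y) / 2 = π * (x - y) by ring,
    show (2 * π * x + 2 * π * y) / 2 = π * (x + y) by ring, abs_mul, abs_mul,
    abs_of_pos (by norm_num : (0:ℝ) < 2)] at h1
  have hx' := abs_le.1 hx
  have hy' := abs_le.1 hy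
  have h2 : 1 / 2 ≤ cos (π * (x + y)) := by
    rw [← cos_pi_div_three, ← cos_abs (π * (x + y))]
    apply cos_le_cos_of_nonneg_of_le_pi (abs_nonneg _) (by linarith [pi_pos])
    rw [abs_mul, abs_of_pos pi_pos]
    have : |x + y| ≤ 1 / 3 := abs_le.2 ⟨by linarith, by linarith⟩
    nlinarith [pi_pos]
  have h3 : 2 * |x - y| ≤ |sin (π * (x - y))| := by
    have h4 : |x - y| ≤ 1 / 3 := abs_le.2 ⟨by linarith, by linarith⟩
    have h5 := abs_sin_ge (x := (x - y) / 2) (by rw [abs_div, abs_of_pos (by norm_num : (0:ℝ) < 2)]; linarith)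
    rw [show 2 * π * ((x - y) / 2) = π * (x - y) by ring, abs_div,
      abs_of_pos (by norm_num : (0:ℝ) < 2)] at h5
    linarith
  rw [abs_of_nonneg (by linarith : 0 ≤ cos (π * (x + y)))] at h1
  have h4 : 2 * |x - y| ≤ 2 * |sin (π * (x - y))| * cos (π * (x + y)) := by
    nlinarith [abs_nonneg (sin (π * (x - y))), abs_nonneg (x - y)]
  have h5 := mul_le_mul_of_nonneg_left h4 (abs_nonneg a)
  nlinarith [abs_nonneg (x - y)]

/-- the derivative is large near zero -/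
theorem mm_le {a ω x : ℝ} (hω0 : 0 < ω) (hω1 : ω ≤ 1 / 16) (hx : |x| ≤ 1 / 6 + 1 / 100) :
    mm a ω ≤ |dphi a x| := by
  unfold mm dphi
  have h1 : sin (2 * π * ω) ≤ cos (2 * π * x) := by
    rw [← cos_abs (2 * π * x), ← cos_pi_div_two_sub]
    apply cos_le_cos_of_nonneg_of_le_pi (abs_nonneg _) (by nlinarith [pi_pos])
    rw [abs_mul, abs_of_pos (by positivity : (0:ℝ) < 2 * π)]
    nlinarith [pi_pos]
  have h0 : 0 ≤ sin (2 * π * ω) := by
    apply sin_nonneg_of_nonneg_of_le_pi (by positivity)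
    nlinarith [pi_pos]
  have h2 : |2 * π * a * cos (2 * π * x)| = 2 * π * |a| * cos (2 * π * x) := by
    rw [abs_mul, abs_mul, abs_of_pos (by positivity : (0:ℝ) < 2 * π), abs_of_nonneg (h0.trans h1)]
  have h3 : |2 * π * a * cos (2 * π * x)| ≤ |2 + 2 * π * a * cos (2 * π * x)| + 2 := by
    have h4 := abs_sub (2 + 2 * π * a * cos (2 * π * x)) 2
    rw [show 2 + 2 * π * a * cos (2 * π * x) - 2 = 2 * π * a * cos (2 * π * x) by ring,
      abs_of_pos (by norm_num : (0:ℝ) < 2)] at h4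
    exact h4
  rw [h2] at h3
  have h5 : 2 * π * |a| * sin (2 * π * ω) ≤ 2 * π * |a| * cos (2 * π * x) :=
    mul_le_mul_of_nonneg_left h1 (by positivity)
  linarith

/-- LE-START2 -/
theorem le_START2 : S_START2 := by
  intro a ω A ha hω0 hω1 hA hne
  obtain ⟨n₀, N, z, ρ, s', t', u, hρ, hin, hs', ht', hC, hh, hb1, hb2⟩ :=
    fwd_path (by linarith) hA hne
  have hst' : s' ≤ t' := hC.1
  have hms : s' ∈ Icc s' t' := ⟨le_rfl, hst'⟩
  have hmt : t' ∈ Icc s' t' := ⟨hst', le_rfl⟩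
  -- the values at the time N + 1
  have hwide : 100 ≤ |Xn a z.1 z.2 (N + 1) s' - Xn a z.1 z.2 (N + 1) t'| := by
    have e1 : Xn a z.1 z.2 (N + 1) s' = phi a ((F a)^[N] (z.1 + s', z.2)).1 -
        ((F a)^[N] (z.1 + s', z.2)).2 := iter_fst' a N (z.1 + s', z.2)
    have e2 : Xn a z.1 z.2 (N + 1) t' = phi a ((F a)^[N] (z.1 + t', z.2)).1 -
        ((F a)^[N] (z.1 + t', z.2)).2 := iter_fst' a N (z.1 + t', z.2)
    have h1 := phi_exp2 (a := a) (hb2 s' hms) (hb2 t' hmt)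
    have h2 := hh s' hms t' hmt
    have h3 : |((F a)^[N] (z.1 + s', z.2)).1 - ((F a)^[N] (z.1 + t', z.2)).1| = 31 / 200 := by
      rcases hC.2.1 with ⟨h4, h5⟩ | ⟨h4, h5⟩
      · have h4' : ((F a)^[N] (z.1 + s', z.2)).1 = u := h4
        have h5' : ((F a)^[N] (z.1 + t', z.2)).1 = u + 31 / 200 := h5
        rw [h4', h5', show u - (u + 31 / 200) = -(31 / 200) by ring, abs_neg,
          abs_of_pos (by norm_num)]
      · have h4' : ((F a)^[N] (z.1 + s', z.2)).1 = u + 31 / 200 := h4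
        have h5' : ((F a)^[N] (z.1 + t', z.2)).1 = u := h5
        rw [h4', h5', show u + 31 / 200 - u = 31 / 200 by ring, abs_of_pos (by norm_num)]
    rw [h3] at h1
    rw [e1, e2, show phi a ((F a)^[N] (z.1 + s', z.2)).1 - ((F a)^[N] (z.1 + s', z.2)).2 -
      (phi a ((F a)^[N] (z.1 + t', z.2)).1 - ((F a)^[N] (z.1 + t', z.2)).2) =
      (phi a ((F a)^[N] (z.1 + s', z.2)).1 - phi a ((F a)^[N] (z.1 + t', z.2)).1) -
      (((F a)^[N] (z.1 + s', z.2)).2 - ((F a)^[N] (z.1 + t', z.2)).2) by ring]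
    have h6 := abs_sub_abs_le_abs_sub
      (phi a ((F a)^[N] (z.1 + s', z.2)).1 - phi a ((F a)^[N] (z.1 + t', z.2)).1)
      (((F a)^[N] (z.1 + s', z.2)).2 - ((F a)^[N] (z.1 + t', z.2)).2)
    linarith
  -- the two open sets
  obtain ⟨δ₁, hδ₁, hd₁⟩ := tube (K := Icc 0 ρ) isCompact_Icc z.2
    (U := ⋂ j ∈ Finset.range (N + 2),
      {q : ℝ × ℝ | dist ((F a)^[j] (z.1 + q.1, q.2)) ((F a)^[j] (z.1 + q.1, z.2)) < 1 / 100})
    (isOpen_biInter_finset fun j _ => by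
      have hG : Continuous fun q : ℝ × ℝ => (F a)^[j] (z.1 + q.1, q.2) :=
        ((F_cont a).iterate j).comp (by fun_prop)
      have hG0 : Continuous fun q : ℝ × ℝ => (F a)^[j] (z.1 + q.1, z.2) :=
        ((F_cont a).iterate j).comp (by fun_prop)
      exact isOpen_lt (hG.dist hG0) continuous_const) (fun τ _ => by
      rw [mem_iInter₂]
      intro j _
      rw [mem_setOf_eq, dist_self]
      norm_num)
  obtain ⟨δ₂, hδ₂, hd₂⟩ := tube (K := Icc 0 ρ) isCompact_Icc z.2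
    (U := {q : ℝ × ℝ | pr (z.1 + q.1, q.2) ∈ (S a)^[n₀] '' A})
    ((isOpen_image a n₀ hA).preimage (pr_cont.comp (by fun_prop))) (fun τ hτ => hin τ hτ)
  refine ⟨n₀, N + 1, z.1, z.2, min δ₁ δ₂, ρ, lt_min hδ₁ hδ₂, hρ, ?_, ?_⟩
  · intro y' hy' τ hτ
    have h1 : |y' - z.2| ≤ δ₂ := by
      rw [abs_le]
      have := min_le_right δ₁ δ₂
      constructor
      · linarith [hy'.1]
      · linarith [hy'.2]
    exact hd₂ y' h1 τ hτ
  · intro y' hy'
    have h1 : |y' - z.2| ≤ δ₁ := by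
      rw [abs_le]
      have := min_le_left δ₁ δ₂
      constructor
      · linarith [hy'.1]
      · linarith [hy'.2]
    have hd : ∀ j ≤ N + 1, ∀ τ ∈ Icc 0 ρ,
        |Xn a z.1 y' j τ - Xn a z.1 z.2 j τ| < 1 / 100 := by
      intro j hj τ hτ
      have h2 := mem_iInter₂.1 (hd₁ y' h1 τ hτ) j (Finset.mem_range.2 (by omega))
      have h3 : dist ((F a)^[j] (z.1 + τ, y')) ((F a)^[j] (z.1 + τ, z.2)) < 1 / 100 := h2
      rw [Prod.dist_eq, max_lt_iff, Real.dist_eq, Real.dist_eq] at h3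
      exact h3.1
    have hf : Continuous (Xn a z.1 y' (N + 1)) := by
      have h2 : Continuous (hor z.1 y') := by
        show Continuous fun τ : ℝ => (z.1 + τ, y')
        fun_prop
      exact (((F_cont a).iterate (N + 1)).comp h2).fst
    have hsρ : s' ∈ Icc 0 ρ := ⟨hs', hst'.trans ht'⟩
    have htρ : t' ∈ Icc 0 ρ := ⟨hs'.trans hst', ht'⟩
    have hds := abs_lt.1 (hd (N + 1) le_rfl s' hsρ)
    have hdt := abs_lt.1 (hd (N + 1) le_rfl t' htρ)
    have hlh : ∀ k : ℤ, lo ω k < hi ω k := by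
      intro k
      unfold lo hi
      linarith
    have hcross : ∃ (k : ℤ) (s t : ℝ), s' ≤ s ∧ t ≤ t' ∧
        Cross (Xn a z.1 y' (N + 1)) s t (lo ω k) (hi ω k) := by
      have hcases : Xn a z.1 y' (N + 1) s' + 2 ≤ Xn a z.1 y' (N + 1) t' ∨
          Xn a z.1 y' (N + 1) t' + 2 ≤ Xn a z.1 y' (N + 1) s' := by
        rcases abs_cases (Xn a z.1 z.2 (N + 1) s' - Xn a z.1 z.2 (N + 1) t') with
          ⟨h2, _⟩ | ⟨h2, _⟩
        · right
          rw [h2] at hwide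
          linarith [hds.1, hdt.2]
        · left
          rw [h2] at hwide
          linarith [hds.2, hdt.1]
      rcases hcases with h2 | h2
      · refine ⟨⌈2 * Xn a z.1 y' (N + 1) s' + 1 / 2⌉, ?_⟩
        have hk1 := Int.le_ceil (2 * Xn a z.1 y' (N + 1) s' + 1 / 2)
        have hk2 := Int.ceil_lt_add_one (2 * Xn a z.1 y' (N + 1) s' + 1 / 2)
        set k := ⌈2 * Xn a z.1 y' (N + 1) s' + 1 / 2⌉ with hk
        obtain ⟨s, t, h5, h6, h7⟩ := cross_sub hf (u := s') (v := t') (lo := lo ω k) (hi := hi ω k)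
          (by unfold lo; linarith) (by unfold hi; linarith) (hlh k).le
        rw [min_eq_left hst'] at h5
        rw [max_eq_right hst'] at h6
        exact ⟨s, t, h5, h6, h7⟩
      · refine ⟨⌈2 * Xn a z.1 y' (N + 1) t' + 1 / 2⌉, ?_⟩
        have hk1 := Int.le_ceil (2 * Xn a z.1 y' (N + 1) t' + 1 / 2)
        have hk2 := Int.ceil_lt_add_one (2 * Xn a z.1 y' (N + 1) t' + 1 / 2)
        set k := ⌈2 * Xn a z.1 y' (N + 1) t' + 1 / 2⌉ with hk
        obtain ⟨s, t, h5, h6, h7⟩ := cross_sub hf (u := t') (v := s') (lo := lo ω k) (hi := hi ω k)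
          (by unfold lo; linarith) (by unfold hi; linarith) (hlh k).le
        rw [min_eq_right hst'] at h5
        rw [max_eq_left hst'] at h6
        exact ⟨s, t, h5, h6, h7⟩
    obtain ⟨k, s, t, hs, ht, hCr⟩ := hcross
    refine ⟨s, t, by linarith, by linarith, ?_, ⟨k, hCr⟩, ?_⟩
    · rcases lt_or_eq_of_le hCr.1 with h2 | h2
      · exact h2
      · exfalso
        have h3 := hlh k
        rcases hCr.2.1 with ⟨h4, h5⟩ | ⟨h4, h5⟩
        · rw [h2, h5] at h4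
          linarith
        · rw [h2, h5] at h4
          linarith
    · intro j hj τ hτ
      apply mm_le hω0 hω1
      have hτ' : τ ∈ Icc s' t' := ⟨hs.trans hτ.1, hτ.2.trans ht⟩
      have hτρ : τ ∈ Icc 0 ρ := ⟨hs'.trans hτ'.1, hτ'.2.trans ht'⟩
      have h2 : |Xn a z.1 z.2 j τ| ≤ 1 / 6 := by
        rcases Nat.lt_or_ge j N with h3 | h3
        · exact hb1 j h3 τ hτρ
        · have h4 : j = N := by omega
          subst h4
          exact hb2 τ hτ'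
      have h3 := hd j (by omega) τ hτρ
      have h4 := abs_sub_abs_le_abs_sub (Xn a z.1 y' j τ) (Xn a z.1 z.2 j τ)
      linarith

end Pool.Agent.H710.LE
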